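import Pool.Agent.helper10.EGH.Spec

/-!
# Project p2e (MP_70a088_an, end game by heights), row MLD: the heights which land at `p` form a measurable set (helper3)
-/

set_option autoImplicit false

open Complex Metric Set Filter Topology MeasureTheory

noncomputable section

namespace EGH

theorem MLD (hALO : ALO_stmt) : MLD_stmt := by
  intro κ h S O N P DP hB l hl p
  have hE : ∀ (t : ℕ) (U : Set ℂ), IsOpen U →
      MeasurableSet {s : ℝ | s ∈ Ioo 0 h ∧ Al S O (P l) t s ∧ ∀ x ∈ Icc (0 : ℝ) 1, S^[t] (P l ⟨x, s⟩) ∈ U} :=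
    fun t U hU => (hALO κ h S O N P DP hB l hl t U hU).measurableSet
  have hset : {s : ℝ | s ∈ Ioo 0 h ∧ Ld S O (P l) p s} =
      (⋂ n : ℕ, ⋃ T₀ : ℕ, ⋂ t : ℕ, {s : ℝ | s ∈ Ioo 0 h ∧ Al S O (P l) (T₀ + t) s ∧
        ∀ x ∈ Icc (0 : ℝ) 1, S^[T₀ + t] (P l ⟨x, s⟩) ∈ ball p (1 / ((n : ℝ) + 1))}) ∩
      ⋂ t : ℕ, {s : ℝ | s ∈ Ioo 0 h ∧ Al S O (P l) t s ∧ ∀ x ∈ Icc (0 : ℝ) 1, S^[t] (P l ⟨x, s⟩) ∈ ({p}ᶜ : Set ℂ)} := by
    ext s
    simp only [mem_setOf_eq, mem_inter_iff, mem_iInter, mem_iUnion]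
    constructor
    · rintro ⟨hs, h1, h2, h3⟩
      refine ⟨fun n => ?_, fun t => ⟨hs, h1 t, fun x hx => h2 t x hx⟩⟩
      rw [Metric.tendstoUniformlyOn_iff] at h3
      obtain ⟨T₀, hT₀⟩ := eventually_atTop.1 (h3 (1 / ((n : ℝ) + 1)) Nat.one_div_pos_of_nat)
      refine ⟨T₀, fun t => ⟨hs, h1 _, fun x hx => ?_⟩⟩
      rw [mem_ball, dist_comm]
      exact hT₀ (T₀ + t) (Nat.le_add_right _ _) x hx
    · rintro ⟨h1, h2⟩
      refine ⟨(h2 0).1, fun t => (h2 t).2.1, fun t x hx => (h2 t).2.2 x hx, ?_⟩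
      rw [Metric.tendstoUniformlyOn_iff]
      intro ε hε
      obtain ⟨n, hn⟩ := exists_nat_one_div_lt hε
      obtain ⟨T₀, hT₀⟩ := h1 n
      refine eventually_atTop.2 ⟨T₀, fun t ht x hx => ?_⟩
      obtain ⟨i, rfl⟩ := Nat.exists_eq_add_of_le ht
      have := (hT₀ i).2.2 x hx
      rw [mem_ball, dist_comm] at this
      exact this.trans hn
  rw [hset]
  exact (MeasurableSet.iInter fun n => MeasurableSet.iUnion fun T₀ => MeasurableSet.iInter fun t => hE _ _ isOpen_ball).inter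
    (MeasurableSet.iInter fun t => hE _ _ isOpen_compl_singleton)

end EGH
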